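import Pool.Agent.H13.Loc.Key

set_option autoImplicit false
set_option linter.all false

open Set Filter Topology NormedSpace

namespace Pool.Agent.H13.Loc

variable {A : Type*} [NormedAddCommGroup A] [NormedSpace ℝ A] [FiniteDimensional ℝ A]
variable {m : A →L[ℝ] A →L[ℝ] A} {J : A →L[ℝ] A}

theorem near {X : A →L[ℝ] A} {x : A} (hG : ∀ t : ℝ, ∃ g, InG m J g ∧ exp (t • X) x = g x)
    {ε : ℝ} (hε : 0 < ε) : ∃ t : ℝ, |t| < ε ∧
      ∀ ρ > (0:ℝ), ∃ δ > (0:ℝ), ∀ s : ℝ, 0 < s → s < δ →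
      ∃ h, Mult m J h ∧ ‖h - 1‖ ≤ ρ ∧ h (exp (t • X) x) = exp (s • X) (exp (t • X) x) := by
  classical
  haveI : ProperSpace (A →L[ℝ] A) := FiniteDimensional.proper ℝ _
  let Gs : Set (A →L[ℝ] A) := {g | InG m J g}
  haveI : Nonempty Gs := ⟨⟨1, InG.one⟩⟩
  let gn : ℕ → Gs := TopologicalSpace.denseSeq Gs
  have hgn : DenseRange gn := TopologicalSpace.denseRange_denseSeq Gs
  -- approximations
  have happ : ∀ g : A →L[ℝ] A, InG m J g → ∀ r > (0:ℝ), ∃ n, ∃ h, Mult m J h ∧ ‖h - 1‖ ≤ r ∧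
      g = h * (gn n : A →L[ℝ] A) := by
    intro g hg r hr
    let ψ : Gs → A →L[ℝ] A := fun k => g * Ring.inverse (k : A →L[ℝ] A)
    have hψ : Continuous ψ := by
      rw [continuous_iff_continuousAt]
      rintro ⟨k, hk⟩
      obtain ⟨u, rfl⟩ := hk.1
      have h1 : ContinuousAt (Ring.inverse : (A →L[ℝ] A) → (A →L[ℝ] A)) u :=
        (contDiffAt_ringInverse ℝ u (n := 1)).continuousAt
      have h2 : ContinuousAt (fun k : Gs => Ring.inverse (k : A →L[ℝ] A)) ⟨u, hk⟩ :=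
        ContinuousAt.comp (g := Ring.inverse) (f := Subtype.val) h1 continuousAt_subtype_val
      exact continuousAt_const.mul h2
    have hop : IsOpen {k : Gs | ‖ψ k - 1‖ < r} := isOpen_lt (by fun_prop) continuous_const
    have hne : {k : Gs | ‖ψ k - 1‖ < r}.Nonempty := by
      refine ⟨⟨g, hg⟩, ?_⟩
      obtain ⟨u, rfl⟩ := hg.1
      show ‖(u : A →L[ℝ] A) * Ring.inverse (u : A →L[ℝ] A) - 1‖ < r
      rw [Ring.inverse_unit, u.mul_inv]
      simpa using hr
    obtain ⟨n, hn⟩ := hgn.exists_mem_open hop hne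
    have hgu := (gn n).2
    obtain ⟨u, hu⟩ := hgu.1
    have hmu := hgu.2
    rw [← hu] at hmu
    refine ⟨n, g * (↑u⁻¹ : A →L[ℝ] A), hg.2.mul hmu.inv, ?_, ?_⟩
    · have h1 : ‖g * Ring.inverse (gn n : A →L[ℝ] A) - 1‖ < r := hn
      rw [← hu, Ring.inverse_unit] at h1
      exact h1.le
    · rw [← hu, mul_assoc, u.inv_mul, mul_one]
  -- the compact sets
  let K : ℝ → Set (A →L[ℝ] A) := fun r => {h | Mult m J h} ∩ Metric.closedBall 1 r
  have hK : ∀ r, IsCompact (K r) := fun r => (isCompact_closedBall _ _).inter_left isClosed_mult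
  let T : ℝ → ℕ → Set ℝ := fun r n => {t | ∃ h ∈ K r, exp (t • X) x = h ((gn n : A →L[ℝ] A) x)}
  have hTc : ∀ r n, IsClosed (T r n) := by
    intro r n
    have h1 : IsCompact ((fun h : A →L[ℝ] A => h ((gn n : A →L[ℝ] A) x)) '' K r) :=
      (hK r).image (by fun_prop)
    have h2 : Continuous fun t : ℝ => exp (t • X) x := by
      have h3 : Continuous fun t : ℝ => exp (t • X) :=
        (differentiable_exp_smul_const ℝ X).continuous
      exact h3.clm_apply continuous_const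
    have h3 := h1.isClosed.preimage h2
    convert h3 using 1
    ext t
    constructor
    · rintro ⟨h, h4, h5⟩
      exact ⟨h, h4, h5.symm⟩
    · rintro ⟨h, h4, h5⟩
      exact ⟨h, h4, h5.symm⟩
  have hTU : ∀ r > (0:ℝ), ⋃ n, T r n = univ := by
    intro r hr
    rw [eq_univ_iff_forall]
    intro t
    obtain ⟨g, hg, hgt⟩ := hG t
    obtain ⟨n, h, h1, h2, h3⟩ := happ g hg r hr
    refine mem_iUnion.mpr ⟨n, h, ⟨h1, ?_⟩, ?_⟩
    · rw [Metric.mem_closedBall, dist_eq_norm]; exact h2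
    · rw [hgt, h3]; rfl
  let r : ℕ → ℝ := fun j => 1 / ((j : ℝ) + 1)
  have hr : ∀ j, 0 < r j := fun j => by positivity
  have hd1 : ∀ j, Dense (⋃ n, interior (T (r j) n)) := fun j =>
    dense_iUnion_interior_of_closed (hTc (r j)) (hTU _ (hr j))
  have hd2 : Dense (⋂ j, ⋃ n, interior (T (r j) n)) :=
    dense_iInter_of_isOpen_nat (fun j => isOpen_iUnion fun n => isOpen_interior) hd1
  obtain ⟨t, ht1, ht2⟩ := hd2.exists_mem_open Metric.isOpen_ball
    ⟨(0:ℝ), Metric.mem_ball_self hε⟩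
  refine ⟨t, by simpa using ht2, fun ρ hρ => ?_⟩
  -- choose r
  have hev : ∀ᶠ p : (A →L[ℝ] A) × (A →L[ℝ] A) in 𝓝 (1, 1), IsUnit p.2 ∧
      ‖p.1 * Ring.inverse p.2 - 1‖ < ρ := by
    have e1 : ∀ᶠ p : (A →L[ℝ] A) × (A →L[ℝ] A) in 𝓝 (1, 1), IsUnit p.2 :=
      (continuous_snd.tendsto _).eventually (Units.isOpen.mem_nhds isUnit_one)
    have hinv : ContinuousAt (Ring.inverse : (A →L[ℝ] A) → (A →L[ℝ] A)) 1 :=
      (contDiffAt_ringInverse ℝ (1 : (A →L[ℝ] A)ˣ) (n := 1)).continuousAt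
    have hc : ContinuousAt (fun p : (A →L[ℝ] A) × (A →L[ℝ] A) => ‖p.1 * Ring.inverse p.2 - 1‖)
        (1, 1) := by
      have h1 : ContinuousAt (fun p : (A →L[ℝ] A) × (A →L[ℝ] A) => Ring.inverse p.2) (1, 1) :=
        ContinuousAt.comp (g := Ring.inverse) (f := Prod.snd) hinv continuousAt_snd
      exact ((continuousAt_fst.mul h1).sub continuousAt_const).norm
    have e2 := hc.eventually_lt (continuousAt_const (y := ρ)) (by simp [hρ])
    exact e1.and e2
  obtain ⟨r0, hr0, hr0'⟩ := Metric.eventually_nhds_iff.mp hev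
  obtain ⟨j, hj⟩ := exists_nat_one_div_lt hr0
  have hj' : r j < r0 := hj
  have ht3 := mem_iUnion.mp (mem_iInter.mp ht1 j)
  obtain ⟨n, hn⟩ := ht3
  rw [mem_interior_iff_mem_nhds, Metric.mem_nhds_iff] at hn
  obtain ⟨δ, hδ, hδ'⟩ := hn
  refine ⟨δ, hδ, fun s hs0 hs => ?_⟩
  obtain ⟨k0, hk0, hk0'⟩ := hδ' (Metric.mem_ball_self hδ)
  obtain ⟨k, hk, hk'⟩ := hδ' (show s + t ∈ Metric.ball t δ by
    rw [Metric.mem_ball, Real.dist_eq]
    simpa [abs_of_pos hs0] using hs)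
  have hb1 : dist k 1 < r0 := lt_of_le_of_lt (Metric.mem_closedBall.mp hk.2) hj'
  have hb2 : dist k0 1 < r0 := lt_of_le_of_lt (Metric.mem_closedBall.mp hk0.2) hj'
  obtain ⟨hu, hn⟩ := hr0' (y := (k, k0)) (by
    rw [Prod.dist_eq]
    exact max_lt hb1 hb2)
  simp only at hu hn
  obtain ⟨u, rfl⟩ := hu
  rw [Ring.inverse_unit] at hn
  refine ⟨k * (↑u⁻¹ : A →L[ℝ] A), hk.1.mul (Mult.inv hk0.1), hn.le, ?_⟩
  rw [← exp_add_smul, hk', hk0', mul_app, unit_inv_apply]

/-- the tangent space of the orbit -/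
noncomputable def Tan (m : A →L[ℝ] A →L[ℝ] A) (J : A →L[ℝ] A) (x : A) : Submodule ℝ A :=
  (Der m J).map (ContinuousLinearMap.apply ℝ A x : (A →L[ℝ] A) →L[ℝ] A).toLinearMap

theorem mem_Tan {x v : A} : v ∈ Tan m J x ↔ ∃ d ∈ Der m J, d x = v := by
  rw [Tan, Submodule.mem_map]
  rfl

theorem finrank_Tan_le {g : A →L[ℝ] A} (hg : InG m J g) (x : A) :
    Module.finrank ℝ (Tan m J (g x)) ≤ Module.finrank ℝ (Tan m J x) := by
  have h1 : Tan m J (g x) ≤ (Tan m J x).map g.toLinearMap := by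
    intro v hv
    obtain ⟨d, hd, rfl⟩ := mem_Tan.mp hv
    obtain ⟨u, rfl⟩ := hg.1
    rw [Submodule.mem_map]
    have h2 := conj_mem_Der (u := u⁻¹) (Mult.inv hg.2) hd
    rw [inv_inv] at h2
    refine ⟨_, mem_Tan.mpr ⟨_, h2, rfl⟩, ?_⟩
    show (u : A →L[ℝ] A) ((↑u⁻¹ : A →L[ℝ] A) (d ((u : A →L[ℝ] A) x))) = _
    rw [unit_apply_inv]
  exact (Submodule.finrank_mono h1).trans (Submodule.finrank_map_le _ _)

theorem backward {X : A →L[ℝ] A}
    (hG : ∀ x, ∀ t : ℝ, ∃ g, InG m J g ∧ exp (t • X) x = g x) (x : A) :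
    ∃ d ∈ Der m J, X x = d x := by
  by_contra hcon
  have hX : X x ∉ Tan m J x := by
    intro h
    obtain ⟨d, hd, h⟩ := mem_Tan.mp h
    exact hcon ⟨d, hd, h.symm⟩
  let k := Module.finrank ℝ (Tan m J x)
  let b : Module.Basis (Fin k) ℝ (Tan m J x) := Module.finBasis ℝ _
  have hb : ∀ i, ∃ d ∈ Der m J, d x = (b i : A) := fun i => mem_Tan.mp (b i).2
  choose d hd hdb using hb
  let f : A → Fin (k + 1) → A := fun z => Fin.cons (X z) (fun i => d i z)
  have hf : Continuous f := by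
    refine continuous_pi fun i => ?_
    refine Fin.cases ?_ (fun i => ?_) i
    · simpa [f] using X.continuous
    · simpa [f] using (d i).continuous
  have hli : LinearIndependent ℝ (f x) := by
    have h1 : LinearIndependent ℝ (fun i => d i x) := by
      simp only [hdb]
      exact b.linearIndependent.map' (Tan m J x).subtype (Submodule.ker_subtype _)
    refine linearIndependent_finCons.mpr ⟨h1, fun hmem => hX ?_⟩
    refine Submodule.span_le.mpr ?_ hmem
    rintro _ ⟨i, rfl⟩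
    exact mem_Tan.mpr ⟨d i, hd i, rfl⟩
  have hop : IsOpen {z | LinearIndependent ℝ (f z)} :=
    (isOpen_setOfPred_linearIndependent (𝕜 := ℝ) (E := A) (ι := Fin (k+1))).preimage hf
  have hcont : ContinuousAt (fun t : ℝ => exp (t • X) x) 0 := by
    have h3 : Continuous fun t : ℝ => exp (t • X) :=
      (differentiable_exp_smul_const ℝ X).continuous
    exact (h3.clm_apply continuous_const).continuousAt
  have hev : ∀ᶠ t : ℝ in 𝓝 0, LinearIndependent ℝ (f (exp (t • X) x)) := by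
    refine hcont.eventually (p := fun z => LinearIndependent ℝ (f z)) ?_
    simp only [zero_smul, exp_zero]
    exact hop.mem_nhds hli
  obtain ⟨ε, hε, hε'⟩ := Metric.eventually_nhds_iff.mp hev
  obtain ⟨t, ht, hO⟩ := near (hG x) hε
  have h1 : LinearIndependent ℝ (f (exp (t • X) x)) := hε' (by simpa using ht)
  obtain ⟨e, he, hXe⟩ := key hO
  obtain ⟨g, hg, hgt⟩ := hG x t
  have h2 : ∀ i, f (exp (t • X) x) i ∈ Tan m J (exp (t • X) x) := by
    intro i
    refine Fin.cases ?_ (fun i => ?_) i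
    · exact mem_Tan.mpr ⟨e, he, hXe.symm⟩
    · exact mem_Tan.mpr ⟨d i, hd i, rfl⟩
  have h3 : LinearIndependent ℝ (fun i => (⟨f (exp (t • X) x) i, h2 i⟩ : Tan m J (exp (t • X) x))) :=
    LinearIndependent.of_comp (Tan m J (exp (t • X) x)).subtype h1
  have h4 := h3.fintype_card_le_finrank
  rw [Fintype.card_fin, hgt] at h4
  have h5 := finrank_Tan_le hg x
  have : k + 1 ≤ k := h4.trans h5
  omega

end Pool.Agent.H13.Loc
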