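import Mathlib

set_option autoImplicit false
set_option linter.all false

open Set Filter Topology NormedSpace

namespace Pool.Agent.H13.Loc

variable {A : Type*} [NormedAddCommGroup A] [NormedSpace ℝ A]

/-- multiplicative maps commuting with `J` -/
def Mult (m : A →L[ℝ] A →L[ℝ] A) (J h : A →L[ℝ] A) : Prop :=
  (∀ a b, h (m a b) = m (h a) (h b)) ∧ ∀ a, h (J a) = J (h a)

/-- derivations commuting with `J` -/
def Der (m : A →L[ℝ] A →L[ℝ] A) (J : A →L[ℝ] A) : Submodule ℝ (A →L[ℝ] A) where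
  carrier := {d | (∀ a b, d (m a b) = m (d a) b + m a (d b)) ∧ ∀ a, d (J a) = J (d a)}
  zero_mem' := by simp
  add_mem' := by
    rintro d e ⟨h1, h2⟩ ⟨h3, h4⟩
    refine ⟨fun a b => ?_, fun a => ?_⟩
    · simp only [ContinuousLinearMap.add_apply, h1, h3, map_add]
      abel
    · simp [h2, h4]
  smul_mem' := by
    rintro c d ⟨h1, h2⟩
    refine ⟨fun a b => ?_, fun a => ?_⟩
    · simp [h1]
    · simp [h2]

theorem mem_Der {m : A →L[ℝ] A →L[ℝ] A} {J d : A →L[ℝ] A} :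
    d ∈ Der m J ↔ (∀ a b, d (m a b) = m (d a) b + m a (d b)) ∧ ∀ a, d (J a) = J (d a) := Iff.rfl

/-- the group -/
def InG (m : A →L[ℝ] A →L[ℝ] A) (J h : A →L[ℝ] A) : Prop := IsUnit h ∧ Mult m J h

variable {m : A →L[ℝ] A →L[ℝ] A} {J : A →L[ℝ] A}

theorem mul_app (g h : A →L[ℝ] A) (a : A) : (g * h) a = g (h a) := rfl

theorem Mult.one : Mult m J 1 := ⟨fun a b => rfl, fun a => rfl⟩

theorem Mult.mul {g h : A →L[ℝ] A} (hg : Mult m J g) (hh : Mult m J h) : Mult m J (g * h) := by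
  refine ⟨fun a b => ?_, fun a => ?_⟩
  · simp only [mul_app, hh.1, hg.1]
  · simp only [mul_app, hh.2, hg.2]

theorem unit_apply_inv (u : (A →L[ℝ] A)ˣ) (a : A) :
    (u : A →L[ℝ] A) ((↑u⁻¹ : A →L[ℝ] A) a) = a := by
  have := congrArg (fun f : A →L[ℝ] A => f a) u.mul_inv
  exact this

theorem unit_inv_apply (u : (A →L[ℝ] A)ˣ) (a : A) :
    (↑u⁻¹ : A →L[ℝ] A) ((u : A →L[ℝ] A) a) = a := by
  have := congrArg (fun f : A →L[ℝ] A => f a) u.inv_mul
  exact this

theorem Mult.inv {u : (A →L[ℝ] A)ˣ} (hu : Mult m J (u : A →L[ℝ] A)) :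
    Mult m J (↑u⁻¹ : A →L[ℝ] A) := by
  refine ⟨fun a b => ?_, fun a => ?_⟩
  · have h1 : m a b = (u : A →L[ℝ] A) (m ((↑u⁻¹ : A →L[ℝ] A) a) ((↑u⁻¹ : A →L[ℝ] A) b)) := by
      rw [hu.1, unit_apply_inv, unit_apply_inv]
    rw [h1, unit_inv_apply]
  · have h1 : J a = (u : A →L[ℝ] A) (J ((↑u⁻¹ : A →L[ℝ] A) a)) := by
      rw [hu.2, unit_apply_inv]
    rw [h1, unit_inv_apply]

theorem conj_mem_Der {u : (A →L[ℝ] A)ˣ} (hu : Mult m J (u : A →L[ℝ] A)) {d : A →L[ℝ] A}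
    (hd : d ∈ Der m J) : (u : A →L[ℝ] A) * d * (↑u⁻¹ : A →L[ℝ] A) ∈ Der m J := by
  have hi := hu.inv
  refine ⟨fun a b => ?_, fun a => ?_⟩
  · simp only [mul_app, hi.1, hd.1, map_add, hu.1, unit_apply_inv]
  · simp only [mul_app, hi.2, hd.2, hu.2]

/-- linear uniqueness -/
theorem lin_unique {F : Type*} [NormedAddCommGroup F] [NormedSpace ℝ F] {ε : ℝ} (hε : 0 < ε)
    (M : ℝ → F →L[ℝ] F) (K : ℝ) (hM : ∀ t ∈ Ioo (-ε) ε, ‖M t‖ ≤ K) (w : ℝ → F)
    (hw : ∀ t ∈ Ioo (-ε) ε, HasDerivAt w (M t (w t)) t) (h0 : w 0 = 0) :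
    ∀ t ∈ Ioo (-ε) ε, w t = 0 := by
  have h0m : (0 : ℝ) ∈ Ioo (-ε) ε := ⟨by linarith, hε⟩
  have hK : 0 ≤ K := (norm_nonneg _).trans (hM 0 h0m)
  have := ODE_solution_unique_of_mem_Ioo (v := fun t x => M t x) (s := fun _ => univ)
    (K := K.toNNReal) (a := -ε) (b := ε) (t₀ := 0) (f := w) (g := fun _ => 0) ?_ h0m ?_ ?_ h0
  · intro t ht
    exact this ht
  · intro t ht
    have h1 : LipschitzWith ‖M t‖₊ (M t) := (M t).lipschitz
    refine (h1.weaken ?_).lipschitzOnWith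
    rw [← NNReal.coe_le_coe, Real.coe_toNNReal K hK]
    simpa using hM t ht
  · intro t ht
    exact ⟨hw t ht, mem_univ _⟩
  · intro t ht
    refine ⟨?_, mem_univ _⟩
    simpa using hasDerivAt_const t (0 : F)

/-- flows of derivations are multiplicative -/
theorem flow_mult {ε : ℝ} (hε : 0 < ε) (D : ℝ → A →L[ℝ] A)
    (hD : ∀ t ∈ Ioo (-ε) ε, D t ∈ Der m J) (K : ℝ) (hK : ∀ t ∈ Ioo (-ε) ε, ‖D t‖ ≤ K)
    (h : ℝ → A →L[ℝ] A) (hh : ∀ t ∈ Ioo (-ε) ε, HasDerivAt h (D t * h t) t) (h0 : h 0 = 1) :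
    ∀ t ∈ Ioo (-ε) ε, Mult m J (h t) := by
  have happ : ∀ a : A, ∀ t ∈ Ioo (-ε) ε, HasDerivAt (fun t => h t a) (D t (h t a)) t := by
    intro a t ht
    have := (hh t ht).clm_apply (hasDerivAt_const t a)
    simpa using this
  intro t ht
  refine ⟨fun a b => ?_, fun a => ?_⟩
  · have := lin_unique hε D K hK (fun t => h t (m a b) - m (h t a) (h t b)) ?_ ?_ t ht
    · exact sub_eq_zero.mp this
    · intro s hs
      have h1 := happ (m a b) s hs
      have h2 : HasDerivAt (fun t => m (h t a) (h t b))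
          (m (D s (h s a)) (h s b) + m (h s a) (D s (h s b))) s := by
        have h3 : HasDerivAt (fun t => m (h t a)) (m (D s (h s a))) s := by
          have := (hasDerivAt_const s m).clm_apply (happ a s hs)
          simpa using this
        have := h3.clm_apply (happ b s hs)
        simpa using this
      have h4 := h1.sub h2
      rw [map_sub, (hD s hs).1]
      exact h4
    · simp [h0]
  · have := lin_unique hε D K hK (fun t => h t (J a) - J (h t a)) ?_ ?_ t ht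
    · exact sub_eq_zero.mp this
    · intro s hs
      have h1 := happ (J a) s hs
      have h2 : HasDerivAt (fun t => J (h t a)) (J (D s (h s a))) s := by
        have := (hasDerivAt_const s J).clm_apply (happ a s hs)
        simpa using this
      have h4 := h1.sub h2
      rw [map_sub, (hD s hs).2]
      exact h4
    · simp [h0]

end Pool.Agent.H13.Loc
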