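import Pool.Agent.H13.Loc.Basic

set_option autoImplicit false
set_option linter.all false

open Set Filter Topology NormedSpace

namespace Pool.Agent.H13.Loc

variable {A : Type*} [NormedAddCommGroup A] [NormedSpace ℝ A] [FiniteDimensional ℝ A]
variable {m : A →L[ℝ] A →L[ℝ] A} {J : A →L[ℝ] A}

theorem exists_section (m : A →L[ℝ] A →L[ℝ] A) (J : A →L[ℝ] A) (y : A) :
    ∃ s : A →L[ℝ] (A →L[ℝ] A), (∀ v, s v ∈ Der m J) ∧ ∀ d ∈ Der m J, s (d y) y = d y := by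
  let ev : (Der m J) →ₗ[ℝ] A :=
    { toFun := fun d => (d : A →L[ℝ] A) y
      map_add' := fun a b => rfl
      map_smul' := fun a b => rfl }
  obtain ⟨s0, hs0⟩ := ev.rangeRestrict.exists_rightInverse_of_surjective
    (LinearMap.range_rangeRestrict ev)
  obtain ⟨g, hg⟩ := LinearMap.exists_extend s0
  let s1 : A →ₗ[ℝ] (A →L[ℝ] A) := (Der m J).subtype ∘ₗ g
  refine ⟨s1.toContinuousLinearMap, fun v => ?_, fun d hd => ?_⟩
  · show ((g v : Der m J) : A →L[ℝ] A) ∈ Der m J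
    exact (g v).2
  · show ((g (d y) : Der m J) : A →L[ℝ] A) y = d y
    have h1 : d y ∈ LinearMap.range ev := ⟨⟨d, hd⟩, rfl⟩
    have h2 : g (d y) = s0 ⟨d y, h1⟩ := by
      rw [← hg]; rfl
    rw [h2]
    have h3 := congrArg (fun f => ((f ⟨d y, h1⟩ : LinearMap.range ev) : A)) hs0
    exact h3

theorem local_orbit {X : A →L[ℝ] A} (hX : ∀ x, ∃ d ∈ Der m J, X x = d x) (y : A) :
    ∃ δ > (0 : ℝ), ∀ t ∈ Ioo (-δ) δ, ∃ g, InG m J g ∧ exp (t • X) y = g y := by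
  obtain ⟨s, hs1, hs2⟩ := exists_section m J y
  let F : (A →L[ℝ] A) → (A →L[ℝ] A) := fun h => -(s ((h * X * Ring.inverse h) y)) * h
  have hF : ContDiffAt ℝ 1 F 1 := by
    have hinv : ContDiffAt ℝ 1 (Ring.inverse : (A →L[ℝ] A) → (A →L[ℝ] A)) 1 :=
      contDiffAt_ringInverse ℝ (1 : (A →L[ℝ] A)ˣ)
    have h1 : ContDiffAt ℝ 1 (fun h : A →L[ℝ] A => h * X * Ring.inverse h) 1 :=
      (contDiffAt_id.mul contDiffAt_const).mul hinv
    have h2 : ContDiffAt ℝ 1 (fun h : A →L[ℝ] A => (h * X * Ring.inverse h) y) 1 :=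
      h1.clm_apply contDiffAt_const
    have h3 : ContDiffAt ℝ 1 (fun h : A →L[ℝ] A => s ((h * X * Ring.inverse h) y)) 1 :=
      s.contDiff.contDiffAt.comp _ h2
    exact h3.neg.mul contDiffAt_id
  obtain ⟨α, hα0, ε, hε, hα⟩ :=
    hF.exists_forall_mem_closedBall_exists_eq_forall_mem_Ioo_hasDerivAt₀ 0
  simp only [zero_sub, zero_add] at hα
  have hαc : ContinuousAt α 0 := (hα 0 ⟨by linarith, hε⟩).continuousAt
  have hcj : ContinuousAt (fun t => α t * X * Ring.inverse (α t)) 0 := by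
    have hinv : ContinuousAt (Ring.inverse : (A →L[ℝ] A) → (A →L[ℝ] A)) (α 0) := by
      rw [hα0]
      exact (contDiffAt_ringInverse ℝ (1 : (A →L[ℝ] A)ˣ) (n := 1)).continuousAt
    exact (hαc.mul continuousAt_const).mul (hinv.comp hαc)
  have ev : ∀ᶠ t in 𝓝 (0:ℝ), IsUnit (α t) ∧ ‖α t * X * Ring.inverse (α t)‖ < ‖X‖ + 1 ∧
      t ∈ Ioo (-ε) ε := by
    have e1 : ∀ᶠ t in 𝓝 (0:ℝ), IsUnit (α t) := by
      apply hαc.eventually
      rw [hα0]
      exact Units.isOpen.mem_nhds isUnit_one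
    have e2 : ∀ᶠ t in 𝓝 (0:ℝ), ‖α t * X * Ring.inverse (α t)‖ < ‖X‖ + 1 := by
      have := hcj.norm
      apply this.eventually_lt continuousAt_const
      simp [hα0]
    have e3 : ∀ᶠ t in 𝓝 (0:ℝ), t ∈ Ioo (-ε) ε := Ioo_mem_nhds (by linarith) hε
    filter_upwards [e1, e2, e3] with t h1 h2 h3 using ⟨h1, h2, h3⟩
  obtain ⟨δ, hδ, hb⟩ := Metric.eventually_nhds_iff.mp ev
  have hb' : ∀ t ∈ Ioo (-δ) δ, IsUnit (α t) ∧ ‖α t * X * Ring.inverse (α t)‖ < ‖X‖ + 1 ∧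
      t ∈ Ioo (-ε) ε := by
    intro t ht
    apply hb
    rw [Real.dist_eq, sub_zero, abs_lt]
    exact ht
  let D : ℝ → A →L[ℝ] A := fun t => -(s ((α t * X * Ring.inverse (α t)) y))
  have hD : ∀ t, D t ∈ Der m J := fun t => (Der m J).neg_mem (hs1 _)
  have hDn : ∀ t ∈ Ioo (-δ) δ, ‖D t‖ ≤ ‖s‖ * ((‖X‖ + 1) * ‖y‖) := by
    intro t ht
    obtain ⟨_, h2, _⟩ := hb' t ht
    show ‖-(s ((α t * X * Ring.inverse (α t)) y))‖ ≤ _
    rw [norm_neg]
    refine (s.le_opNorm _).trans ?_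
    gcongr
    refine (ContinuousLinearMap.le_opNorm _ _).trans ?_
    gcongr
  have hαD : ∀ t ∈ Ioo (-δ) δ, HasDerivAt α (D t * α t) t := fun t ht => hα t (hb' t ht).2.2
  have hmult := flow_mult hδ D (fun t _ => hD t) _ hDn α hαD hα0
  refine ⟨δ, hδ, fun t ht => ?_⟩
  have hw := lin_unique hδ (fun t => α t * X * Ring.inverse (α t) + D t)
    ((‖X‖ + 1) + ‖s‖ * ((‖X‖ + 1) * ‖y‖)) ?_ (fun t => α t (exp (t • X) y) - y) ?_ ?_ t ht
  · obtain ⟨hu, _, _⟩ := hb' t ht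
    obtain ⟨u, hu'⟩ := hu
    have hm := hmult t ht
    rw [← hu'] at hm
    refine ⟨(↑u⁻¹ : A →L[ℝ] A), ⟨Units.isUnit _, hm.inv⟩, ?_⟩
    have h1 : (u : A →L[ℝ] A) (exp (t • X) y) = y := by
      rw [hu']
      exact sub_eq_zero.mp hw
    rw [← h1, unit_inv_apply, h1]
  · intro t ht
    refine (norm_add_le _ _).trans ?_
    exact add_le_add (hb' t ht).2.1.le (hDn t ht)
  · intro t ht
    have h1 : HasDerivAt (fun t => exp (t • X) y) (X (exp (t • X) y)) t := by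
      have := (hasDerivAt_exp_smul_const' (𝕂 := ℝ) X t).clm_apply (hasDerivAt_const t y)
      simpa [mul_app] using this
    have h2 := ((hαD t ht).clm_apply h1).sub_const y
    convert h2 using 1
    obtain ⟨hu, _, _⟩ := hb' t ht
    obtain ⟨u, hu'⟩ := hu
    have hm := hmult t ht
    rw [← hu'] at hm
    have hDy : D t y = -((α t * X * Ring.inverse (α t)) y) := by
      obtain ⟨d, hd, hdX⟩ := hX ((↑u⁻¹ : A →L[ℝ] A) y)
      have h3 : (α t * X * Ring.inverse (α t)) y =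
          ((u : A →L[ℝ] A) * d * (↑u⁻¹ : A →L[ℝ] A)) y := by
        rw [← hu', Ring.inverse_unit]
        simp only [mul_app]
        rw [hdX]
      have h4 := hs2 _ (conj_mem_Der hm hd)
      show -(s ((α t * X * Ring.inverse (α t)) y) y) = _
      rw [h3, h4]
    simp only [ContinuousLinearMap.add_apply, map_sub, mul_app, hDy]
    have h5 : Ring.inverse (α t) (α t (exp (t • X) y)) = exp (t • X) y := by
      rw [← hu', Ring.inverse_unit]
      exact unit_inv_apply _ _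
    rw [h5]
    abel
  · simp [hα0]

theorem exp_add_smul (X : A →L[ℝ] A) (s t : ℝ) (x : A) :
    exp ((s + t) • X) x = exp (s • X) (exp (t • X) x) := by
  letI : NormedAlgebra ℚ (A →L[ℝ] A) := NormedAlgebra.restrictScalars ℚ ℝ (A →L[ℝ] A)
  rw [add_smul, exp_add_of_commute]
  · rfl
  · exact ((Commute.refl X).smul_left s).smul_right t

theorem InG.mul {g h : A →L[ℝ] A} (hg : InG m J g) (hh : InG m J h) : InG m J (g * h) :=
  ⟨hg.1.mul hh.1, hg.2.mul hh.2⟩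

theorem InG.exists_inv {g : A →L[ℝ] A} (hg : InG m J g) :
    ∃ h, InG m J h ∧ g * h = 1 ∧ h * g = 1 := by
  obtain ⟨⟨u, rfl⟩, h2⟩ := hg
  exact ⟨(↑u⁻¹ : A →L[ℝ] A), ⟨Units.isUnit _, h2.inv⟩, u.mul_inv, u.inv_mul⟩

theorem InG.one : InG m J 1 := ⟨isUnit_one, Mult.one⟩

theorem forward {X : A →L[ℝ] A} (hX : ∀ x, ∃ d ∈ Der m J, X x = d x) (x : A) (t : ℝ) :
    ∃ g, InG m J g ∧ exp (t • X) x = g x := by
  let T : Set ℝ := {t | ∃ g, InG m J g ∧ exp (t • X) x = g x}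
  have hloc : ∀ t : ℝ, ∃ δ > (0 : ℝ), ∀ s : ℝ, dist s t < δ →
      ∃ g, InG m J g ∧ exp (s • X) x = g (exp (t • X) x) := by
    intro t
    obtain ⟨δ, hδ, h⟩ := local_orbit hX (exp (t • X) x)
    refine ⟨δ, hδ, fun s hs => ?_⟩
    rw [Real.dist_eq, abs_lt] at hs
    obtain ⟨g, hg, hg2⟩ := h (s - t) hs
    refine ⟨g, hg, ?_⟩
    rw [← hg2, ← exp_add_smul]
    congr 3
    ring
  have hopen : IsOpen T := by
    rw [Metric.isOpen_iff]
    intro t ht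
    obtain ⟨δ, hδ, h⟩ := hloc t
    refine ⟨δ, hδ, fun s hs => ?_⟩
    obtain ⟨g, hg, hgs⟩ := h s hs
    obtain ⟨g', hg', hgs'⟩ := ht
    exact ⟨g * g', hg.mul hg', by rw [hgs, hgs']; rfl⟩
  have hclosed : IsClosed T := by
    rw [← isOpen_compl_iff, Metric.isOpen_iff]
    intro t ht
    obtain ⟨δ, hδ, h⟩ := hloc t
    refine ⟨δ, hδ, fun s hs hsT => ht ?_⟩
    obtain ⟨g, hg, hgs⟩ := h s hs
    obtain ⟨g', hg', hgs'⟩ := hsT
    obtain ⟨k, hk, hk1, hk2⟩ := hg.exists_inv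
    refine ⟨k * g', hk.mul hg', ?_⟩
    rw [mul_app, ← hgs', hgs, ← mul_app, hk2]
    rfl
  have h0 : (0:ℝ) ∈ T := ⟨1, InG.one, by simp⟩
  have := (IsClopen.eq_univ ⟨hclosed, hopen⟩ ⟨0, h0⟩)
  have ht : t ∈ T := by rw [this]; trivial
  exact ht

end Pool.Agent.H13.Loc
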