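import Pool.Agent.H13.Loc.Forward

set_option autoImplicit false
set_option linter.all false

open Set Filter Topology NormedSpace

namespace Pool.Agent.H13.Loc

variable {A : Type*} [NormedAddCommGroup A] [NormedSpace ℝ A] [FiniteDimensional ℝ A]
variable {m : A →L[ℝ] A →L[ℝ] A} {J : A →L[ℝ] A}

theorem exp_mult {d : A →L[ℝ] A} (hd : d ∈ Der m J) (t : ℝ) : Mult m J (exp (t • d)) := by
  have hε : (0 : ℝ) < |t| + 1 := by positivity
  refine flow_mult hε (fun _ => d) (fun _ _ => hd) ‖d‖ (fun _ _ => le_rfl)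
    (fun s => exp (s • d)) (fun s _ => hasDerivAt_exp_smul_const' (𝕂 := ℝ) d s) (by simp) t ?_
  exact abs_lt.mp (by linarith)

theorem exp_fix {d : A →L[ℝ] A} {y : A} (hy : d y = 0) (t : ℝ) : exp (t • d) y = y := by
  have hε : (0 : ℝ) < |t| + 1 := by positivity
  have := lin_unique hε (fun _ => d) ‖d‖ (fun _ _ => le_rfl) (fun s => exp (s • d) y - y) ?_ ?_ t
    (abs_lt.mp (by linarith))
  · exact sub_eq_zero.mp this
  · intro s hs
    have h1 := ((hasDerivAt_exp_smul_const' (𝕂 := ℝ) d s).clm_apply (hasDerivAt_const s y)).sub_const y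
    convert h1 using 1
    simp [mul_app, hy]
  · simp

theorem isClosed_mult : IsClosed {h : A →L[ℝ] A | Mult m J h} := by
  have h1 : {h : A →L[ℝ] A | Mult m J h} =
      (⋂ a : A, ⋂ b : A, {h : A →L[ℝ] A | h (m a b) = m (h a) (h b)}) ∩
        ⋂ a : A, {h : A →L[ℝ] A | h (J a) = J (h a)} := by
    ext h
    simp [Mult]
  rw [h1]
  refine IsClosed.inter ?_ ?_
  · refine isClosed_iInter fun a => isClosed_iInter fun b => isClosed_eq (by fun_prop) ?_
    have : Continuous fun h : A →L[ℝ] A => m (h a) := by fun_prop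
    exact this.clm_apply (by fun_prop)
  · exact isClosed_iInter fun a => isClosed_eq (by fun_prop) (by fun_prop)

theorem tendsto_exp_slope (d : A →L[ℝ] A) {σ : ℕ → ℝ} (hσ : Tendsto σ atTop (𝓝 0))
    (hσ0 : ∀ n, σ n ≠ 0) : Tendsto (fun n => (σ n)⁻¹ • (exp (σ n • d) - 1)) atTop (𝓝 d) := by
  have h1 : HasDerivAt (fun u : ℝ => exp (u • d)) (d * exp ((0:ℝ) • d)) 0 :=
    hasDerivAt_exp_smul_const' (𝕂 := ℝ) d 0
  have h2 := h1.tendsto_slope_zero
  have h3 : Tendsto σ atTop (𝓝[≠] 0) :=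
    tendsto_nhdsWithin_iff.mpr ⟨hσ, Eventually.of_forall hσ0⟩
  have h4 := h2.comp h3
  simpa [Function.comp_def] using h4

theorem key {X : A →L[ℝ] A} {y : A}
    (hO : ∀ ρ > (0:ℝ), ∃ δ > (0:ℝ), ∀ s : ℝ, 0 < s → s < δ →
      ∃ h, Mult m J h ∧ ‖h - 1‖ ≤ ρ ∧ h y = exp (s • X) y) :
    ∃ d ∈ Der m J, X y = d y := by
  obtain ⟨δ0, hδ0, hS⟩ := hO (1/2) (by norm_num)
  -- the sequence of times
  let s : ℕ → ℝ := fun n => δ0 / (n + 2)
  have hspos : ∀ n, 0 < s n := fun n => by positivity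
  have hslt : ∀ n, s n < δ0 := fun n => by
    show δ0 / (n + 2) < δ0
    apply div_lt_self hδ0
    have : (0 : ℝ) ≤ n := Nat.cast_nonneg n
    linarith
  have hs0 : Tendsto s atTop (𝓝 0) := by
    have h1 : Tendsto (fun n : ℕ => (n : ℝ) + 2) atTop atTop :=
      tendsto_atTop_add_const_right _ _ tendsto_natCast_atTop_atTop
    exact h1.const_div_atTop δ0
  -- minimisers
  have hmin : ∀ n, ∃ h, Mult m J h ∧ h y = exp (s n • X) y ∧
      ∀ h', Mult m J h' → h' y = exp (s n • X) y → ‖h - 1‖ ≤ ‖h' - 1‖ := by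
    intro n
    let S : Set (A →L[ℝ] A) := {h | Mult m J h} ∩ {h | h y = exp (s n • X) y} ∩
      Metric.closedBall 1 (1/2)
    have hSc : IsCompact S := by
      refine (isCompact_closedBall _ _).inter_left ?_
      exact isClosed_mult.inter (isClosed_eq (by fun_prop) (by fun_prop))
    have hSn : S.Nonempty := by
      obtain ⟨h, h1, h2, h3⟩ := hS (s n) (hspos n) (hslt n)
      exact ⟨h, ⟨h1, h3⟩, by rw [Metric.mem_closedBall, dist_eq_norm]; exact h2⟩
    obtain ⟨h, hh, hm⟩ := hSc.exists_isMinOn hSn (f := fun h => ‖h - 1‖)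
      (by fun_prop)
    refine ⟨h, hh.1.1, hh.1.2, fun h' h1 h2 => ?_⟩
    by_cases hc : ‖h' - 1‖ ≤ 1/2
    · exact hm ⟨⟨h1, h2⟩, by rw [Metric.mem_closedBall, dist_eq_norm]; exact hc⟩
    · have := hh.2
      rw [Metric.mem_closedBall, dist_eq_norm] at this
      linarith
  choose h hm hy hmin using hmin
  have hh0 : Tendsto (fun n => ‖h n - 1‖) atTop (𝓝 0) := by
    rw [Metric.tendsto_atTop]
    intro ρ hρ
    obtain ⟨δ, hδ, hδ'⟩ := hO (ρ/2) (by positivity)
    rw [Metric.tendsto_atTop] at hs0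
    obtain ⟨N, hN⟩ := hs0 δ hδ
    refine ⟨N, fun n hn => ?_⟩
    have h1 := hN n hn
    rw [Real.dist_eq, sub_zero, abs_of_pos (hspos n)] at h1
    obtain ⟨k, hk1, hk2, hk3⟩ := hδ' (s n) (hspos n) h1
    have := hmin n k hk1 hk3
    rw [Real.dist_eq, sub_zero, abs_of_nonneg (norm_nonneg _)]
    linarith
  let σ : ℕ → ℝ := fun n => max ‖h n - 1‖ (s n)
  have hσpos : ∀ n, 0 < σ n := fun n => lt_max_of_lt_right (hspos n)
  have hσ0 : Tendsto σ atTop (𝓝 0) := by
    have := hh0.max hs0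
    simpa using this
  let u : ℕ → A →L[ℝ] A := fun n => (σ n)⁻¹ • (h n - 1)
  let q : ℕ → ℝ := fun n => (σ n)⁻¹ * s n
  have hu1 : ∀ n, ‖u n‖ ≤ 1 := by
    intro n
    show ‖(σ n)⁻¹ • (h n - 1)‖ ≤ 1
    rw [norm_smul, norm_inv, Real.norm_of_nonneg (hσpos n).le, inv_mul_le_iff₀ (hσpos n), mul_one]
    exact le_max_left _ _
  have hq1 : ∀ n, q n ∈ Icc (0:ℝ) 1 := by
    intro n
    constructor
    · have := hσpos n
      have := hspos n
      positivity
    · show (σ n)⁻¹ * s n ≤ 1
      rw [inv_mul_le_iff₀ (hσpos n), mul_one]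
      exact le_max_right _ _
  have hcomp : IsCompact ((Metric.closedBall (0 : A →L[ℝ] A) 1) ×ˢ (Icc (0:ℝ) 1)) :=
    (isCompact_closedBall _ _).prod isCompact_Icc
  obtain ⟨⟨d, q'⟩, hdq, φ, hφ, hlim⟩ := hcomp.tendsto_subseq (x := fun n => (u n, q n))
    (fun n => ⟨by simpa using hu1 n, hq1 n⟩)
  rw [Prod.tendsto_iff] at hlim
  obtain ⟨hul, hql⟩ := hlim
  simp only [Function.comp_def] at hul hql
  have hσφ : Tendsto (fun n => σ (φ n)) atTop (𝓝 0) := hσ0.comp hφ.tendsto_atTop
  have hsφ : Tendsto (fun n => s (φ n)) atTop (𝓝 0) := hs0.comp hφ.tendsto_atTop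
  have hhφ : Tendsto (fun n => h (φ n)) atTop (𝓝 1) := by
    rw [tendsto_iff_norm_sub_tendsto_zero]
    exact hh0.comp hφ.tendsto_atTop
  have hue : ∀ a : A, Tendsto (fun n => u (φ n) a) atTop (𝓝 (d a)) := by
    intro a
    exact ((ContinuousLinearMap.apply ℝ A a).continuous.tendsto d).comp hul
  have hhu : ∀ n a, h n a = a + σ n • u n a := by
    intro n a
    show h n a = a + σ n • (((σ n)⁻¹ • (h n - 1)) a)
    simp only [ContinuousLinearMap.smul_apply, ContinuousLinearMap.sub_apply]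
    rw [smul_inv_smul₀ (hσpos n).ne']
    simp
  have hd : d ∈ Der m J := by
    refine ⟨fun a b => ?_, fun a => ?_⟩
    · have h1 : ∀ n, u n (m a b) = m (u n a) b + m a (u n b) + σ n • m (u n a) (u n b) := by
        intro n
        have h2 := (hm n).1 a b
        rw [hhu, hhu, hhu] at h2
        simp only [map_add, map_smul, ContinuousLinearMap.add_apply,
          ContinuousLinearMap.smul_apply] at h2
        have h3 : σ n • u n (m a b) =
            σ n • (m (u n a) b + m a (u n b) + σ n • m (u n a) (u n b)) := by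
          simp only [smul_add]
          have h4 := congrArg (fun z => z - m a b) h2
          simp only [add_sub_cancel_left] at h4
          rw [h4]
          module
        exact smul_right_injective A (hσpos n).ne' h3
      have h5 : Tendsto (fun n => m (u (φ n) a) b + m a (u (φ n) b) +
          σ (φ n) • m (u (φ n) a) (u (φ n) b)) atTop
          (𝓝 (m (d a) b + m a (d b) + (0:ℝ) • m (d a) (d b))) := by
        have c1 : Tendsto (fun n => m (u (φ n) a)) atTop (𝓝 (m (d a))) :=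
          (m.continuous.tendsto _).comp (hue a)
        have c2 : ∀ z : A, Tendsto (fun n => m (u (φ n) a) z) atTop (𝓝 (m (d a) z)) := by
          intro z
          exact ((ContinuousLinearMap.apply ℝ A z).continuous.tendsto _).comp c1
        have c3 : Tendsto (fun n => m a (u (φ n) b)) atTop (𝓝 (m a (d b))) :=
          ((m a).continuous.tendsto _).comp (hue b)
        have c4 : Tendsto (fun n => m (u (φ n) a) (u (φ n) b)) atTop (𝓝 (m (d a) (d b))) := by
          have hc : Continuous fun p : (A →L[ℝ] A) × A => p.1 p.2 := by fun_prop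
          exact (hc.tendsto (m (d a), d b)).comp (c1.prodMk_nhds (hue b))
        exact ((c2 b).add c3).add (hσφ.smul c4)
      have h6 := hue (m a b)
      simp only [h1] at h6
      have h7 := tendsto_nhds_unique h6 h5
      simpa using h7
    · have h1 : ∀ n, u n (J a) = J (u n a) := by
        intro n
        have h2 := (hm n).2 a
        rw [hhu, hhu] at h2
        simp only [map_add, map_smul] at h2
        have h3 := add_left_cancel h2
        exact smul_right_injective A (hσpos n).ne' h3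
      have h5 : Tendsto (fun n => J (u (φ n) a)) atTop (𝓝 (J (d a))) :=
        (J.continuous.tendsto _).comp (hue a)
      have h6 := hue (J a)
      simp only [h1] at h6
      exact tendsto_nhds_unique h6 h5
  have hdy : d y = q' • X y := by
    have h1 : ∀ n, u n y = q n • ((s n)⁻¹ • (exp (s n • X) - 1)) y := by
      intro n
      show ((σ n)⁻¹ • (h n - 1)) y = ((σ n)⁻¹ * s n) • ((s n)⁻¹ • (exp (s n • X) - 1)) y
      simp only [ContinuousLinearMap.smul_apply, ContinuousLinearMap.sub_apply, hy n, mul_smul]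
      rw [smul_inv_smul₀ (hspos n).ne']
    have h2 := tendsto_exp_slope X hsφ (fun n => (hspos (φ n)).ne')
    have h3 : Tendsto (fun n => ((s (φ n))⁻¹ • (exp (s (φ n) • X) - 1)) y) atTop (𝓝 (X y)) :=
      ((ContinuousLinearMap.apply ℝ A y).continuous.tendsto X).comp h2
    have h4 := hql.smul h3
    have h5 := hue y
    simp only [h1] at h5
    exact tendsto_nhds_unique h5 h4
  by_cases hq' : q' = 0
  · exfalso
    rw [hq', zero_smul] at hdy
    -- the improved solutions
    have h1 : Tendsto (fun n => h (φ n) * ((σ (φ n))⁻¹ • (exp (σ (φ n) • (-d)) - 1)) + u (φ n))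
        atTop (𝓝 (1 * (-d) + d)) :=
      (hhφ.mul (tendsto_exp_slope (-d) hσφ (fun n => (hσpos (φ n)).ne'))).add hul
    rw [one_mul, neg_add_cancel] at h1
    have h2 : ∀ᶠ n in atTop, ‖h (φ n) * ((σ (φ n))⁻¹ • (exp (σ (φ n) • (-d)) - 1)) + u (φ n)‖ < 1 := by
      have := h1.norm
      rw [norm_zero] at this
      exact this.eventually (gt_mem_nhds one_pos)
    have h3 : ∀ᶠ n in atTop, q (φ n) < 1 := by
      rw [hq'] at hql
      exact hql.eventually (gt_mem_nhds one_pos)
    obtain ⟨n, h4, h5⟩ := (h2.and h3).exists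
    have h6 : s (φ n) < σ (φ n) := by
      have : (σ (φ n))⁻¹ * s (φ n) < 1 := h5
      rwa [inv_mul_lt_iff₀ (hσpos _), mul_one] at this
    have h7 : σ (φ n) = ‖h (φ n) - 1‖ := by
      rcases max_choice ‖h (φ n) - 1‖ (s (φ n)) with h8 | h8
      · exact h8
      · exact absurd h8 h6.ne'
    have hnd : -d ∈ Der m J := (Der m J).neg_mem hd
    have hfix : exp (σ (φ n) • (-d)) y = y := exp_fix (by simp [hdy]) _
    have h8 := hmin (φ n) (h (φ n) * exp (σ (φ n) • (-d))) ((hm _).mul (exp_mult hnd _)) (by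
      rw [mul_app, hfix, hy])
    have h9 : h (φ n) * exp (σ (φ n) • (-d)) - 1 = σ (φ n) •
        (h (φ n) * ((σ (φ n))⁻¹ • (exp (σ (φ n) • (-d)) - 1)) + u (φ n)) := by
      show _ = σ (φ n) • (h (φ n) * ((σ (φ n))⁻¹ • (exp (σ (φ n) • (-d)) - 1)) +
        (σ (φ n))⁻¹ • (h (φ n) - 1))
      rw [smul_add, smul_inv_smul₀ (hσpos _).ne', mul_smul_comm, smul_inv_smul₀ (hσpos _).ne',
        mul_sub, mul_one]
      abel
    rw [h9, norm_smul, Real.norm_of_nonneg (hσpos _).le, ← h7] at h8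
    have h10 : σ (φ n) * ‖h (φ n) * ((σ (φ n))⁻¹ • (exp (σ (φ n) • (-d)) - 1)) + u (φ n)‖ <
        σ (φ n) * 1 := mul_lt_mul_of_pos_left h4 (hσpos _)
    linarith
  · refine ⟨q'⁻¹ • d, (Der m J).smul_mem _ hd, ?_⟩
    rw [ContinuousLinearMap.smul_apply, hdy, inv_smul_smul₀ hq']

end Pool.Agent.H13.Loc
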