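import Pool.Agent.H13.Loc.Backward

set_option autoImplicit false
set_option linter.all false

open Set Filter Topology NormedSpace

namespace Pool.Agent.H13.Loc

theorem main {𝕜 : Type*} [RCLike 𝕜] {A : Type*} [NormedAddCommGroup A] [NormedSpace 𝕜 A]
    [NormedSpace ℝ A] [IsScalarTower ℝ 𝕜 A] [FiniteDimensional 𝕜 A]
    (m : A →ₗ[𝕜] A →ₗ[𝕜] A) (X : A →L[𝕜] A) :
    (∀ t : ℝ, ∀ x : A, ∃ ψ : A →L[𝕜] A, (Function.Bijective ψ ∧
      ∀ a b, ψ (m a b) = m (ψ a) (ψ b)) ∧ exp ((t : 𝕜) • X) x = ψ x) ↔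
    ∀ x : A, ∃ D : A →L[𝕜] A, (∀ a b, D (m a b) = m (D a) b + m a (D b)) ∧ X x = D x := by
  classical
  haveI : FiniteDimensional ℝ 𝕜 := inferInstance
  haveI hfd : FiniteDimensional ℝ A := FiniteDimensional.trans ℝ 𝕜 A
  haveI : CompleteSpace A := FiniteDimensional.complete 𝕜 A
  -- the real bilinear map
  let mR : A →L[ℝ] A →L[ℝ] A := LinearMap.toContinuousLinearMap
    { toFun := fun a => LinearMap.toContinuousLinearMap ((m a).restrictScalars ℝ)
      map_add' := by
        intro a b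
        ext c
        simp
      map_smul' := by
        intro r a
        ext c
        simp }
  have hmR : ∀ a b, mR a b = m a b := fun a b => rfl
  let J : A →L[ℝ] A := ((RCLike.I : 𝕜) • (ContinuousLinearMap.id 𝕜 A)).restrictScalars ℝ
  have hJ : ∀ a, J a = (RCLike.I : 𝕜) • a := fun a => rfl
  -- the restriction of scalars as a continuous ring homomorphism
  let Φ : (A →L[𝕜] A) →+* (A →L[ℝ] A) :=
    { toFun := fun f => f.restrictScalars ℝ
      map_one' := rfl
      map_mul' := fun f g => rfl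
      map_zero' := rfl
      map_add' := fun f g => rfl }
  have hΦ : ∀ (f : A →L[𝕜] A) (a : A), Φ f a = f a := fun f a => rfl
  have hΦc : Continuous Φ := (ContinuousLinearMap.restrictScalarsL 𝕜 A A ℝ ℝ).continuous
  have hexp : ∀ (t : ℝ) (x : A), exp ((t : 𝕜) • X) x = exp (t • (Φ X)) x := by
    intro t x
    have h1 : Φ (exp ((t : 𝕜) • X)) = exp (Φ ((t : 𝕜) • X)) := by
      letI : NormedAlgebra ℚ (A →L[𝕜] A) := NormedAlgebra.restrictScalars ℚ 𝕜 (A →L[𝕜] A)
      letI : Algebra ℚ (A →L[ℝ] A) := (NormedAlgebra.restrictScalars ℚ ℝ (A →L[ℝ] A)).toAlgebra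
      exact map_exp Φ hΦc _
    have h2 : Φ ((t : 𝕜) • X) = t • Φ X := by
      ext a
      show (t : 𝕜) • X a = t • X a
      rw [← algebraMap_smul 𝕜 t (X a)]
    rw [← h2, ← h1]
    rfl
  -- lifting real linear maps commuting with `J`
  have hlift : ∀ g : A →L[ℝ] A, (∀ a, g (J a) = J (g a)) → ∃ G : A →L[𝕜] A, ∀ a, G a = g a := by
    intro g hg
    refine ⟨LinearMap.toContinuousLinearMap
      { toFun := g
        map_add' := map_add g
        map_smul' := ?_ }, fun a => rfl⟩
    intro z a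
    have h1 : ∀ a : A, z • a = (RCLike.re z) • a + (RCLike.im z) • J a := by
      intro a
      conv_lhs => rw [← RCLike.re_add_im z, add_smul, mul_smul]
      rw [hJ, ← algebraMap_smul 𝕜 (RCLike.re z) a, ← algebraMap_smul 𝕜 (RCLike.im z)]
    rw [h1 a, map_add, map_smul, map_smul, hg]
    show _ = z • g a
    rw [h1]
  have hDer : ∀ x v : A, (∃ D : A →L[𝕜] A, (∀ a b, D (m a b) = m (D a) b + m a (D b)) ∧
      v = D x) ↔ ∃ d ∈ Der mR J, v = d x := by
    intro x v
    constructor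
    · rintro ⟨D, hD, hv⟩
      exact ⟨Φ D, ⟨fun a b => hD a b, fun a => map_smul D _ a⟩, hv⟩
    · rintro ⟨d, hd, hv⟩
      obtain ⟨D, hD⟩ := hlift d hd.2
      refine ⟨D, fun a b => ?_, by rw [hD]; exact hv⟩
      rw [hD, hD, hD]
      exact hd.1 a b
  have hAut : ∀ x v : A, (∃ ψ : A →L[𝕜] A, (Function.Bijective ψ ∧
      ∀ a b, ψ (m a b) = m (ψ a) (ψ b)) ∧ v = ψ x) ↔ ∃ g, InG mR J g ∧ v = g x := by
    intro x v
    constructor
    · rintro ⟨ψ, ⟨hb, hψ⟩, hv⟩
      refine ⟨Φ ψ, ⟨?_, fun a b => hψ a b, fun a => map_smul ψ _ a⟩, hv⟩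
      let e : A ≃L[𝕜] A := (LinearEquiv.ofBijective ψ.toLinearMap hb).toContinuousLinearEquiv
      have he : ∀ a, e a = ψ a := fun a => rfl
      refine IsUnit.map Φ ?_
      refine ⟨⟨ψ, (e.symm : A →L[𝕜] A), ?_, ?_⟩, rfl⟩
      · ext a
        show ψ (e.symm a) = a
        rw [← he, ContinuousLinearEquiv.apply_symm_apply]
      · ext a
        show e.symm (ψ a) = a
        rw [← he, ContinuousLinearEquiv.symm_apply_apply]
    · rintro ⟨g, hg, hv⟩
      obtain ⟨G, hG⟩ := hlift g hg.2.2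
      refine ⟨G, ⟨?_, fun a b => ?_⟩, by rw [hG]; exact hv⟩
      · have : (G : A → A) = g := funext hG
        rw [this]
        obtain ⟨u, rfl⟩ := hg.1
        exact ⟨Function.LeftInverse.injective (unit_inv_apply u),
          Function.RightInverse.surjective (unit_apply_inv u)⟩
      · rw [hG, hG, hG]
        exact hg.2.1 a b
  simp only [hDer, hAut, hexp]
  constructor
  · intro h x
    exact backward (fun x t => h t x) x
  · intro h t x
    exact forward (X := Φ X) h x t

end Pool.Agent.H13.Loc
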